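import Mathlib

/-!
Turán numbers of directed paths: for every `c`, the directed Turán digraph with `n = c k` vertices
is not extremal for `P_{k+1}` for all large even `k`.
-/

namespace Pool.Agent.Results.MP_81ec8a_co.CompleteBlock

open Finset

/-- The digraph with arc relation `A` contains no directed path on `m` vertices (as a, not
necessarily induced, subdigraph). -/
def PathFree {V : Type*} (m : ℕ) (A : V → V → Prop) : Prop :=
  ¬ ∃ f : Fin m → V, Function.Injective f ∧
    ∀ i : ℕ, ∀ h : i + 1 < m, A (f ⟨i, by omega⟩) (f ⟨i + 1, h⟩)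

/-- The number of arcs. -/
noncomputable def arcs {V : Type*} (A : V → V → Prop) : ℕ := Nat.card {p : V × V // A p.1 p.2}

/-- `ex(n, P_m)`: the maximum number of arcs of a loopless digraph on `n` vertices without a directed
path on `m` vertices. -/
noncomputable def ex (n m : ℕ) : ℕ :=
  sSup {a | ∃ A : Fin n → Fin n → Prop, (∀ v, ¬ A v v) ∧ PathFree m A ∧ arcs A = a}

/-- The arc count of the directed Turán digraphs `T_{n,k}`, `r` being the remainder of `n` modulo
`k`: `(k-1) n² / (2k) - r (k-r) / (2k)`. -/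
noncomputable def aT (n k : ℕ) : ℝ :=
  ((k : ℝ) - 1) / (2 * k) * (n : ℝ) ^ 2 - ((n % k : ℕ) : ℝ) * ((k : ℝ) - ((n % k : ℕ) : ℝ)) / (2 * k)

lemma le_ex {n m : ℕ} (A : Fin n → Fin n → Prop) (h1 : ∀ v, ¬ A v v) (h2 : PathFree m A) :
    arcs A ≤ ex n m := by
  refine le_csSup ⟨Nat.card (Fin n × Fin n), ?_⟩ ⟨A, h1, h2, rfl⟩
  rintro a ⟨B, -, -, rfl⟩
  exact Nat.card_le_card_of_injective Subtype.val Subtype.val_injective

/-- The construction: a complete digraph on `L` vertices, followed by `L` levels with `s` vertices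
each. -/
def D (L s : ℕ) : (Fin L ⊕ (Fin L × Fin s)) → (Fin L ⊕ (Fin L × Fin s)) → Prop
  | Sum.inl a, Sum.inl b => a ≠ b
  | Sum.inl _, Sum.inr _ => True
  | Sum.inr _, Sum.inl _ => False
  | Sum.inr p, Sum.inr q => p.1 < q.1

lemma D_loopless (L s : ℕ) (v : Fin L ⊕ (Fin L × Fin s)) : ¬ D L s v v := by
  rcases v with a | p
  · simp [D]
  · simp [D]

lemma D_pathFree (L s : ℕ) : PathFree (2 * L + 1) (D L s) := by
  rintro ⟨f, hf, hA⟩
  -- after leaving the block the levels increase
  have key : ∀ d : ℕ, ∀ p : ℕ, ∀ h : p + d + 1 < 2 * L + 1, ∀ i x,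
      f ⟨p, by omega⟩ = Sum.inr (i, x) → ∃ j y, f ⟨p + d + 1, h⟩ = Sum.inr (j, y) ∧ i < j := by
    intro d
    induction d with
    | zero =>
      intro p h i x hp
      have h1 := hA p h
      rw [hp] at h1
      rcases hq : f ⟨p + 1, h⟩ with b | ⟨j, y⟩
      · rw [hq] at h1; exact absurd h1 id
      · rw [hq] at h1
        exact ⟨j, y, rfl, h1⟩
    | succ d ih =>
      intro p h i x hp
      obtain ⟨j, y, h1, h2⟩ := ih p (by omega) i x hp
      have h3 := hA (p + d + 1) h
      rw [h1] at h3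
      rcases hq : f ⟨p + (d + 1) + 1, h⟩ with b | ⟨j', y'⟩
      · have hq' : f ⟨p + d + 1 + 1, h⟩ = Sum.inl b := hq
        rw [hq'] at h3; exact absurd h3 id
      · have hq' : f ⟨p + d + 1 + 1, h⟩ = Sum.inr (j', y') := hq
        rw [hq'] at h3
        exact ⟨j', y', rfl, lt_trans h2 h3⟩
  have hinj : Function.Injective (fun p : Fin (2 * L + 1) =>
      (Sum.map id Prod.fst (f p) : Fin L ⊕ Fin L)) := by
    have hlt : ∀ p q : Fin (2 * L + 1), p < q →
        (Sum.map id Prod.fst (f p) : Fin L ⊕ Fin L) ≠ Sum.map id Prod.fst (f q) := by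
      intro p q hpq h
      rcases hp : f p with a | ⟨i, x⟩
      · rcases hq : f q with b | ⟨j, y⟩
        · rw [hp, hq] at h
          simp only [Sum.map_inl, id, Sum.inl.injEq] at h
          have := hf (hp.trans (by rw [h]; exact hq.symm))
          exact absurd this hpq.ne
        · rw [hp, hq] at h
          simp at h
      · obtain ⟨d, hd⟩ : ∃ d, q.val = p.val + d + 1 := ⟨q.val - p.val - 1, by
          have : p.val < q.val := hpq
          omega⟩
        have hlt' : p.val + d + 1 < 2 * L + 1 := by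
          have := q.isLt; omega
        obtain ⟨j, y, h1, h2⟩ := key d p.val hlt' i x hp
        have hq : q = ⟨p.val + d + 1, hlt'⟩ := Fin.ext hd
        rw [← hq] at h1
        rw [hp, h1] at h
        simp only [Sum.map_inr, Sum.inr.injEq] at h
        exact absurd h h2.ne
    intro p q h
    rcases lt_trichotomy p q with h1 | h1 | h1
    · exact absurd h (hlt p q h1)
    · exact h1
    · exact absurd h.symm (hlt q p h1)
  have := Fintype.card_le_of_injective _ hinj
  rw [Fintype.card_fin, Fintype.card_sum, Fintype.card_fin] at this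
  omega

lemma sum_lt (L : ℕ) : 2 * ∑ i : Fin L, (univ.filter (fun j : Fin L => i < j)).card = L * (L - 1) := by
  have h1 : ∀ i : Fin L, (univ.filter (fun j : Fin L => i < j)).card = L - 1 - i.val := by
    intro i
    have : univ.filter (fun j : Fin L => i < j) = Ioi i := by ext; simp
    rw [this, Fin.card_Ioi]
  rw [sum_congr rfl fun i _ => h1 i, Fin.sum_univ_eq_sum_range (fun i => L - 1 - i) L,
    sum_range_reflect (fun i => i) L, mul_comm, sum_range_id_mul_two]

lemma arcs_D (L s : ℕ) : 2 * arcs (D L s) = 2 * (L * (L - 1)) + 2 * (L * (L * s)) +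
    s * s * (L * (L - 1)) := by
  classical
  unfold arcs
  rw [Nat.card_eq_fintype_card, Fintype.card_subtype, card_eq_sum_ones, sum_filter,
    Fintype.sum_prod_type, Fintype.sum_sum_type]
  have h1 : ∀ a : Fin L, ∑ y : Fin L ⊕ (Fin L × Fin s), (if D L s (Sum.inl a) y then 1 else 0)
      = (L - 1) + L * s := by
    intro a
    rw [Fintype.sum_sum_type]
    have e1 : ∑ b : Fin L, (if D L s (Sum.inl a) (Sum.inl b) then 1 else 0) = L - 1 := by
      have : ∀ b : Fin L, (if D L s (Sum.inl a) (Sum.inl b) then 1 else 0)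
          = if b ∈ (univ : Finset (Fin L)).erase a then 1 else 0 := by
        intro b
        have : D L s (Sum.inl a) (Sum.inl b) ↔ b ∈ (univ : Finset (Fin L)).erase a := by
          simp [D, eq_comm]
        simp only [this]
      rw [sum_congr rfl fun b _ => this b, ← sum_filter, ← card_eq_sum_ones, filter_mem_eq_inter,
        univ_inter, card_erase_of_mem (mem_univ _), card_univ, Fintype.card_fin]
    have e2 : ∑ b : Fin L × Fin s, (if D L s (Sum.inl a) (Sum.inr b) then 1 else 0) = L * s := by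
      have : ∀ b : Fin L × Fin s, (if D L s (Sum.inl a) (Sum.inr b) then 1 else 0) = 1 := by
        intro b; simp [D]
      rw [sum_congr rfl fun b _ => this b, ← card_eq_sum_ones, card_univ, Fintype.card_prod,
        Fintype.card_fin, Fintype.card_fin]
    rw [e1, e2]
  have h2 : ∀ p : Fin L × Fin s,
      ∑ y : Fin L ⊕ (Fin L × Fin s), (if D L s (Sum.inr p) y then 1 else 0)
      = (univ.filter (fun j : Fin L => p.1 < j)).card * s := by
    intro p
    rw [Fintype.sum_sum_type]
    have e1 : ∑ b : Fin L, (if D L s (Sum.inr p) (Sum.inl b) then 1 else 0) = 0 := by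
      apply sum_eq_zero
      intro b _
      simp [D]
    have e2 : ∑ b : Fin L × Fin s, (if D L s (Sum.inr p) (Sum.inr b) then 1 else 0)
        = (univ.filter (fun j : Fin L => p.1 < j)).card * s := by
      rw [Fintype.sum_prod_type]
      have : ∀ j : Fin L, ∑ y : Fin s, (if D L s (Sum.inr p) (Sum.inr (j, y)) then 1 else 0)
          = (if p.1 < j then 1 else 0) * s := by
        intro j
        by_cases h : p.1 < j
        · simp [D, h]
        · simp [D, h]
      rw [sum_congr rfl fun j _ => this j, ← sum_mul, ← sum_filter, ← card_eq_sum_ones]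
    rw [e1, e2, zero_add]
  rw [sum_congr rfl fun a _ => h1 a, sum_congr rfl fun p _ => h2 p, sum_const, card_univ,
    Fintype.card_fin, smul_eq_mul, Fintype.sum_prod_type]
  have h3 : ∑ x : Fin L, ∑ _y : Fin s, (univ.filter (fun j : Fin L => x < j)).card * s
      = (∑ x : Fin L, (univ.filter (fun j : Fin L => x < j)).card) * (s * s) := by
    rw [sum_mul]
    refine sum_congr rfl fun x _ => ?_
    rw [sum_const, card_univ, Fintype.card_fin, smul_eq_mul]
    ring
  rw [h3]
  have h4 := sum_lt L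
  have h5 : 2 * (L * (L - 1 + L * s)
      + (∑ x : Fin L, (univ.filter (fun j : Fin L => x < j)).card) * (s * s))
      = 2 * (L * (L - 1)) + 2 * (L * (L * s))
        + s * s * (2 * ∑ x : Fin L, (univ.filter (fun j : Fin L => x < j)).card) := by ring
  rw [h5, h4]

/-- Transport to `Fin n`. -/
lemma le_ex_of_card {V : Type*} [Fintype V] {n m : ℕ} (hn : Fintype.card V = n)
    (A : V → V → Prop) (h1 : ∀ v, ¬ A v v) (h2 : PathFree m A) : arcs A ≤ ex n m := by
  let e := Fintype.equivFinOfCardEq hn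
  have h3 : arcs (fun i j : Fin n => A (e.symm i) (e.symm j)) = arcs A := by
    unfold arcs
    apply Nat.card_congr
    exact (Equiv.prodCongr e.symm e.symm).subtypeEquiv (fun p => Iff.rfl)
  rw [← h3]
  apply le_ex
  · intro v; exact h1 _
  · rintro ⟨f, hf, hA⟩
    exact h2 ⟨fun i => e.symm (f i), e.symm.injective.comp hf, fun i h => hA i h⟩

/-- **Main theorem.** (1) The digraph `T_{60,20}` is not extremal for `P_{21}`: `ex(60, P_{21})` is
larger than `a(T_{60,20})`, so the statement of the problem fails for `k = 20`, `n = 3 k = 60`.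
(2) For all `c ≥ 1` and `L ≥ 2(c-1)² + 2`, with `k = 2 L` and `n = c k`, one has
`ex(n, P_{k+1}) > a(T_{n,k})`. (3) So there is no constant `C` such that `n ≥ C k` implies
`ex(n, P_{k+1}) = a(T_{n,k})`. -/
theorem result :
    (aT 60 20 < (ex 60 21 : ℝ)) ∧
    (∀ c L : ℕ, 1 ≤ c → 2 * (c - 1) ^ 2 + 2 ≤ L →
      aT (c * (2 * L)) (2 * L) < (ex (c * (2 * L)) (2 * L + 1) : ℝ)) ∧
    (∀ C : ℕ, ¬ ∀ k n : ℕ, 1 ≤ k → C * k ≤ n → (ex n (k + 1) : ℝ) = aT n k) := by
  have main : ∀ c L : ℕ, 1 ≤ c → 2 * (c - 1) ^ 2 + 2 ≤ L →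
      aT (c * (2 * L)) (2 * L) < (ex (c * (2 * L)) (2 * L + 1) : ℝ) := by
    intro c L hc hL
    obtain ⟨d, rfl⟩ : ∃ d, c = d + 1 := ⟨c - 1, by omega⟩
    rw [Nat.add_sub_cancel] at hL
    have hcard : Fintype.card (Fin L ⊕ (Fin L × Fin (2 * d + 1))) = (d + 1) * (2 * L) := by
      rw [Fintype.card_sum, Fintype.card_prod, Fintype.card_fin, Fintype.card_fin]
      ring
    have h1 := le_ex_of_card hcard (D L (2 * d + 1)) (D_loopless _ _) (D_pathFree _ _)
    have h2 := arcs_D L (2 * d + 1)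
    obtain ⟨M, rfl⟩ : ∃ M, L = M + 1 := ⟨L - 1, by omega⟩
    rw [Nat.add_sub_cancel] at h2
    have h1R : (arcs (D (M + 1) (2 * d + 1)) : ℝ) ≤ ex ((d + 1) * (2 * (M + 1))) (2 * (M + 1) + 1) := by
      exact_mod_cast h1
    have h2R : 2 * (arcs (D (M + 1) (2 * d + 1)) : ℝ) = 2 * (((M : ℝ) + 1) * M)
        + 2 * (((M : ℝ) + 1) * (((M : ℝ) + 1) * (2 * d + 1)))
        + (2 * (d : ℝ) + 1) * (2 * d + 1) * (((M : ℝ) + 1) * M) := by
      exact_mod_cast h2
    have hLR : 2 * (d : ℝ) ^ 2 + 2 ≤ (M : ℝ) + 1 := by exact_mod_cast hL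
    refine lt_of_lt_of_le ?_ h1R
    have haT : aT ((d + 1) * (2 * (M + 1))) (2 * (M + 1))
        = (2 * (M : ℝ) + 1) * ((d : ℝ) + 1) ^ 2 * (M + 1) := by
      unfold aT
      rw [Nat.mul_mod_left]
      push_cast
      have : (M : ℝ) + 1 ≠ 0 := by positivity
      field_simp
      ring
    rw [haT]
    have hM : (0 : ℝ) < (M : ℝ) + 1 := by positivity
    have hdiff : 2 * (arcs (D (M + 1) (2 * d + 1)) : ℝ)
        - 2 * ((2 * (M : ℝ) + 1) * ((d : ℝ) + 1) ^ 2 * (M + 1))
        = ((M : ℝ) + 1) * ((M : ℝ) + 1 - 2 * (d : ℝ) ^ 2 - 1) := by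
      rw [h2R]; ring
    have : 0 < ((M : ℝ) + 1) * ((M : ℝ) + 1 - 2 * (d : ℝ) ^ 2 - 1) :=
      mul_pos hM (by linarith)
    linarith
  refine ⟨main 3 10 (by norm_num) (by norm_num), main, fun C h => ?_⟩
  have h1 := main (C + 1) (2 * (C + 1 - 1) ^ 2 + 2) (by omega) le_rfl
  have h2 := h (2 * (2 * (C + 1 - 1) ^ 2 + 2)) ((C + 1) * (2 * (2 * (C + 1 - 1) ^ 2 + 2))) (by omega)
    (Nat.mul_le_mul_right _ (by omega))
  rw [h2] at h1
  exact lt_irrefl _ h1

end Pool.Agent.Results.MP_81ec8a_co.CompleteBlock
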